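import Mathlib
import Pool.Agent.H117R2.UC.Defs

/-! Task T06R of helper117's union-closed project: `regionB`. -/

set_option autoImplicit false

namespace Pool.Agent.H69R2.UCT06R

open Real Finset Pool.Agent.H117R2.UC

noncomputable def LB (x y : ℝ) : ℝ :=
  x * y * (343 / 2468 * (138629 / 100000 + (1 - 4 * (x * y)) + (1 - 4 * (x * y)) ^ 2 / 2
      + (1 - 4 * (x * y)) ^ 3 / 3)
    + 1 - x * y / 2 - (x * y) ^ 2 / 6 - (x * y) ^ 3 / 7
    - 2125 / 2468 * (2 - (x + y) / 2 - (x ^ 2 + y ^ 2) / 6 - (x ^ 3 + y ^ 3) / 12 - y ^ 4 / 20))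

noncomputable def RB (x y : ℝ) : ℝ :=
  433 / 10000 * (((x - 617 / 1000) * xiH y + (y - 617 / 1000) * xiH x) / (1234 / 1000))

noncomputable def FB (x y : ℝ) : ℝ :=
  4 * (x * y) * (1 - x * y) ^ 3 + (1 - 2 * (x * y)) * (1 - x * y) * (x + y - 2 * (x * y)) ^ 2
    - (x ^ 2 * (1 - y) ^ 2 + y ^ 2 * (1 - x) ^ 2) ^ 2

/-- partial sums of the series of `-log (1 - t)` are lower bounds -/
theorem partial_le (n : ℕ) {t : ℝ} (h0 : 0 ≤ t) (h1 : t < 1) :
    ∑ k ∈ Finset.range n, t ^ (k + 1) / ((k : ℝ) + 1) ≤ -Real.log (1 - t) := by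
  have h := Real.hasSum_pow_div_log_of_abs_lt_one (x := t) (by rw [abs_of_nonneg h0]; exact h1)
  exact sum_le_hasSum (Finset.range n) (fun k _ => by positivity) h

/-- odd Taylor upper bound of the logarithm -/
theorem log_le_taylor3 {t : ℝ} (ht : 0 < t) :
    Real.log t ≤ (t - 1) - (t - 1) ^ 2 / 2 + (t - 1) ^ 3 / 3 := by
  set g : ℝ → ℝ := fun t => Real.log t - ((t - 1) - (t - 1) ^ 2 / 2 + (t - 1) ^ 3 / 3) with hg
  have hd : ∀ u : ℝ, 0 < u → HasDerivAt g (-(u - 1) ^ 3 / u) u := by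
    intro u hu
    have h1 := Real.hasDerivAt_log hu.ne'
    have h2 : HasDerivAt (fun t : ℝ => t - 1) 1 u := (hasDerivAt_id u).sub_const 1
    have h3 := ((h2.sub ((h2.pow 2).div_const 2)).add ((h2.pow 3).div_const 3))
    have h4 := h1.sub h3
    refine (h4.congr_deriv ?_)
    field_simp
    ring
  have hcont : ∀ s : Set ℝ, s ⊆ Set.Ioi 0 → ContinuousOn g s := fun s hs u hu =>
    (hd u (hs hu)).continuousAt.continuousWithinAt
  have key : g t ≤ g 1 := by
    rcases le_total t 1 with h | h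
    · have hm : MonotoneOn g (Set.Icc t 1) := by
        apply monotoneOn_of_deriv_nonneg (convex_Icc _ _)
        · exact hcont _ (fun u hu => lt_of_lt_of_le ht hu.1)
        · intro u hu
          rw [interior_Icc] at hu
          exact (hd u (ht.trans hu.1)).differentiableAt.differentiableWithinAt
        · intro u hu
          rw [interior_Icc] at hu
          rw [(hd u (ht.trans hu.1)).deriv]
          have hu0 : 0 < u := ht.trans hu.1
          have : (u - 1) ^ 3 ≤ 0 := by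
            have h5 : u - 1 ≤ 0 := by linarith [hu.2]
            nlinarith [mul_nonneg (neg_nonneg.mpr h5) (sq_nonneg (u - 1))]
          exact div_nonneg (by linarith) hu0.le
      exact hm (Set.left_mem_Icc.mpr h) (Set.right_mem_Icc.mpr h) h
    · have hm : AntitoneOn g (Set.Icc 1 t) := by
        apply antitoneOn_of_deriv_nonpos (convex_Icc _ _)
        · exact hcont _ (fun u hu => lt_of_lt_of_le one_pos hu.1)
        · intro u hu
          rw [interior_Icc] at hu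
          exact (hd u (one_pos.trans hu.1)).differentiableAt.differentiableWithinAt
        · intro u hu
          rw [interior_Icc] at hu
          rw [(hd u (one_pos.trans hu.1)).deriv]
          have hu0 : 0 < u := one_pos.trans hu.1
          have : 0 ≤ (u - 1) ^ 3 := pow_nonneg (by linarith [hu.1]) 3
          exact div_nonpos_of_nonpos_of_nonneg (by linarith) hu0.le
      exact hm (Set.left_mem_Icc.mpr h) (Set.right_mem_Icc.mpr h) h
  have h1 : g 1 = 0 := by simp [hg]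
  have : g t = Real.log t - ((t - 1) - (t - 1) ^ 2 / 2 + (t - 1) ^ 3 / 3) := rfl
  linarith

theorem log4_ge : (138629 / 100000 : ℝ) ≤ Real.log 4 := by
  have h : Real.log 4 = 2 * Real.log 2 := by
    rw [show (4 : ℝ) = 2 ^ 2 by norm_num, Real.log_pow]; norm_num
  rw [h]
  have := Real.log_two_gt_d9
  linarith

/-- bound (1) -/
theorem nml_ge {a : ℝ} (ha : 0 ≤ a) :
    a * (138629 / 100000 + (1 - 4 * a) + (1 - 4 * a) ^ 2 / 2 + (1 - 4 * a) ^ 3 / 3) ≤
      negMulLog a := by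
  rcases ha.eq_or_lt with h | h
  · rw [← h]; simp
  · have h1 := log_le_taylor3 (t := 4 * a) (by linarith)
    rw [Real.log_mul (by norm_num) h.ne'] at h1
    have h2 := log4_ge
    have h3 : 138629 / 100000 + (1 - 4 * a) + (1 - 4 * a) ^ 2 / 2 + (1 - 4 * a) ^ 3 / 3 ≤
        -Real.log a := by nlinarith
    unfold negMulLog
    nlinarith [mul_le_mul_of_nonneg_left h3 ha]

/-- bound (2) -/
theorem MM_ge {a : ℝ} (h0 : 0 ≤ a) (h1 : a ≤ 9 / 20) :
    a * (1 - a / 2 - a ^ 2 / 6 - a ^ 3 / 7) ≤ MM a := by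
  have hp := partial_le 6 h0 (lt_of_le_of_lt h1 (by norm_num))
  simp only [Finset.sum_range_succ, Finset.sum_range_zero] at hp
  norm_num at hp
  have h2 : 0 ≤ 1 - a := by linarith
  have h3 := mul_le_mul_of_nonneg_left hp h2
  have h4 : MM a = (1 - a) * (-Real.log (1 - a)) := by
    unfold MM negMulLog; ring
  rw [h4]
  refine le_trans ?_ h3
  -- polynomial inequality
  have h5 : 0 ≤ 1 / 7 - (1 / 12 + a / 20 + a ^ 2 / 30 + a ^ 3 / 6) := by
    have e2 : a ^ 2 ≤ (9 / 20) ^ 2 := pow_le_pow_left₀ h0 h1 2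
    have e3 : a ^ 3 ≤ (9 / 20) ^ 3 := pow_le_pow_left₀ h0 h1 3
    norm_num at e2 e3
    linarith
  have h6 : 0 ≤ a ^ 4 * (1 / 7 - (1 / 12 + a / 20 + a ^ 2 / 30 + a ^ 3 / 6)) :=
    mul_nonneg (by positivity) h5
  nlinarith [h6]

theorem MM_deriv {u : ℝ} (hu : u < 1) : HasDerivAt MM (Real.log (1 - u) + 1) u := by
  have h1 : HasDerivAt (fun t : ℝ => 1 - t) (-1) u := by
    simpa using (hasDerivAt_id u).const_sub 1
  have h2 := (Real.hasDerivAt_negMulLog (x := 1 - u) (by linarith : (1 : ℝ) - u ≠ 0 |> fun h => h))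
  have h3 := HasDerivAt.comp u h2 h1
  refine h3.congr_deriv ?_
  ring

theorem MM_cont : Continuous MM := by
  unfold MM
  exact Real.continuous_negMulLog.comp (continuous_const.sub continuous_id)

/-- bound (3), shorter form -/
theorem MM_le3 {t : ℝ} (h0 : 0 ≤ t) (h1 : t ≤ 1) :
    MM t ≤ t * (1 - t / 2 - t ^ 2 / 6 - t ^ 3 / 12) := by
  set F : ℝ → ℝ := fun t => (t - t ^ 2 / 2 - t ^ 3 / 6 - t ^ 4 / 12) - MM t with hF
  have hm : MonotoneOn F (Set.Icc 0 1) := by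
    have hder : ∀ u : ℝ, u < 1 →
        HasDerivAt F ((1 - 2 * u / 2 - 3 * u ^ 2 / 6 - 4 * u ^ 3 / 12) - (Real.log (1 - u) + 1)) u := by
      intro u hu
      have hi := hasDerivAt_id u
      have hA : HasDerivAt (fun t : ℝ => t - t ^ 2 / 2 - t ^ 3 / 6 - t ^ 4 / 12)
          (1 - 2 * u / 2 - 3 * u ^ 2 / 6 - 4 * u ^ 3 / 12) u := by
        have := ((hi.sub ((hi.pow 2).div_const 2)).sub ((hi.pow 3).div_const 6)).sub
          ((hi.pow 4).div_const 12)
        refine this.congr_deriv ?_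
        simp
      exact hA.sub (MM_deriv hu)
    apply monotoneOn_of_deriv_nonneg (convex_Icc _ _)
    · apply Continuous.continuousOn
      exact (by fun_prop : Continuous fun t : ℝ => t - t ^ 2 / 2 - t ^ 3 / 6 - t ^ 4 / 12).sub MM_cont
    · intro u hu
      rw [interior_Icc] at hu
      exact (hder u hu.2).differentiableAt.differentiableWithinAt
    · intro u hu
      rw [interior_Icc] at hu
      rw [(hder u hu.2).deriv]
      have hp := partial_le 3 hu.1.le hu.2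
      simp only [Finset.sum_range_succ, Finset.sum_range_zero] at hp
      norm_num at hp
      linarith
  have h := hm (Set.left_mem_Icc.mpr zero_le_one) ⟨h0, h1⟩ h0
  have hF0 : F 0 = 0 := by simp [hF, MM]
  have hFt : F t = (t - t ^ 2 / 2 - t ^ 3 / 6 - t ^ 4 / 12) - MM t := rfl
  rw [hF0, hFt] at h
  linarith

/-- bound (3), longer form -/
theorem MM_le4 {t : ℝ} (h0 : 0 ≤ t) (h1 : t ≤ 1) :
    MM t ≤ t * (1 - t / 2 - t ^ 2 / 6 - t ^ 3 / 12 - t ^ 4 / 20) := by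
  set F : ℝ → ℝ := fun t => (t - t ^ 2 / 2 - t ^ 3 / 6 - t ^ 4 / 12 - t ^ 5 / 20) - MM t with hF
  have hm : MonotoneOn F (Set.Icc 0 1) := by
    have hder : ∀ u : ℝ, u < 1 →
        HasDerivAt F ((1 - 2 * u / 2 - 3 * u ^ 2 / 6 - 4 * u ^ 3 / 12 - 5 * u ^ 4 / 20) -
          (Real.log (1 - u) + 1)) u := by
      intro u hu
      have hi := hasDerivAt_id u
      have hA : HasDerivAt (fun t : ℝ => t - t ^ 2 / 2 - t ^ 3 / 6 - t ^ 4 / 12 - t ^ 5 / 20)
          (1 - 2 * u / 2 - 3 * u ^ 2 / 6 - 4 * u ^ 3 / 12 - 5 * u ^ 4 / 20) u := by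
        have := (((hi.sub ((hi.pow 2).div_const 2)).sub ((hi.pow 3).div_const 6)).sub
          ((hi.pow 4).div_const 12)).sub ((hi.pow 5).div_const 20)
        refine this.congr_deriv ?_
        simp
      exact hA.sub (MM_deriv hu)
    apply monotoneOn_of_deriv_nonneg (convex_Icc _ _)
    · apply Continuous.continuousOn
      exact (by fun_prop : Continuous fun t : ℝ => t - t ^ 2 / 2 - t ^ 3 / 6 - t ^ 4 / 12 -
        t ^ 5 / 20).sub MM_cont
    · intro u hu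
      rw [interior_Icc] at hu
      exact (hder u hu.2).differentiableAt.differentiableWithinAt
    · intro u hu
      rw [interior_Icc] at hu
      rw [(hder u hu.2).deriv]
      have hp := partial_le 4 hu.1.le hu.2
      simp only [Finset.sum_range_succ, Finset.sum_range_zero] at hp
      norm_num at hp
      linarith
  have h := hm (Set.left_mem_Icc.mpr zero_le_one) ⟨h0, h1⟩ h0
  have hF0 : F 0 = 0 := by simp [hF, MM]
  have hFt : F t = (t - t ^ 2 / 2 - t ^ 3 / 6 - t ^ 4 / 12 - t ^ 5 / 20) - MM t := rfl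
  rw [hF0, hFt] at h
  linarith

/-- `AH` in terms of `MM` -/
theorem AH_form (x y : ℝ) :
    AH x y = 343 / 2468 * negMulLog (x * y) + MM (x * y) - 2125 / 2468 * (x * MM y + y * MM x) := by
  unfold AH hb
  have h : negMulLog (x * y) = y * negMulLog x + x * negMulLog y := Real.negMulLog_mul x y
  have e1 : negMulLog (1 - x * y) = MM (x * y) := rfl
  have e2 : negMulLog (1 - y) = MM y := rfl
  have e3 : negMulLog (1 - x) = MM x := rfl
  rw [e1, e2, e3, h]
  ring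

theorem AH_ge_LB {x y : ℝ} (hx0 : 0 ≤ x) (hx1 : x ≤ 9 / 20) (hy0 : 0 ≤ y) (hy1 : y ≤ 1) :
    LB x y ≤ AH x y := by
  have ha0 : 0 ≤ x * y := mul_nonneg hx0 hy0
  have ha1 : x * y ≤ 9 / 20 := by nlinarith
  rw [AH_form]
  have h1 := nml_ge ha0
  have h2 := MM_ge ha0 ha1
  have h3 := mul_le_mul_of_nonneg_left (MM_le4 hy0 hy1) hx0
  have h4 := mul_le_mul_of_nonneg_left (MM_le3 hx0 (by linarith : x ≤ 1)) hy0
  unfold LB
  have h5 := mul_le_mul_of_nonneg_left h1 (by norm_num : (0 : ℝ) ≤ 343 / 2468)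
  have h6 : 2125 / 2468 * (x * MM y + y * MM x) ≤ 2125 / 2468 *
      (x * (y * (1 - y / 2 - y ^ 2 / 6 - y ^ 3 / 12 - y ^ 4 / 20)) +
        y * (x * (1 - x / 2 - x ^ 2 / 6 - x ^ 3 / 12))) :=
    mul_le_mul_of_nonneg_left (add_le_add h3 h4) (by norm_num)
  have key : ∀ A B C : ℝ, 343 / 2468 * (x * y * (138629 / 100000 + (1 - 4 * (x * y)) +
      (1 - 4 * (x * y)) ^ 2 / 2 + (1 - 4 * (x * y)) ^ 3 / 3)) ≤ A →
      x * y * (1 - x * y / 2 - (x * y) ^ 2 / 6 - (x * y) ^ 3 / 7) ≤ B →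
      C ≤ 2125 / 2468 *
      (x * (y * (1 - y / 2 - y ^ 2 / 6 - y ^ 3 / 12 - y ^ 4 / 20)) +
        y * (x * (1 - x / 2 - x ^ 2 / 6 - x ^ 3 / 12))) →
      x * y * (343 / 2468 * (138629 / 100000 + (1 - 4 * (x * y)) + (1 - 4 * (x * y)) ^ 2 / 2
      + (1 - 4 * (x * y)) ^ 3 / 3)
    + 1 - x * y / 2 - (x * y) ^ 2 / 6 - (x * y) ^ 3 / 7
    - 2125 / 2468 * (2 - (x + y) / 2 - (x ^ 2 + y ^ 2) / 6 - (x ^ 3 + y ^ 3) / 12 - y ^ 4 / 20)) ≤
      A + B - C := by
    intro A B C hA hB hC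
    have : x * y * (343 / 2468 * (138629 / 100000 + (1 - 4 * (x * y)) + (1 - 4 * (x * y)) ^ 2 / 2
      + (1 - 4 * (x * y)) ^ 3 / 3)
    + 1 - x * y / 2 - (x * y) ^ 2 / 6 - (x * y) ^ 3 / 7
    - 2125 / 2468 * (2 - (x + y) / 2 - (x ^ 2 + y ^ 2) / 6 - (x ^ 3 + y ^ 3) / 12 - y ^ 4 / 20)) =
      343 / 2468 * (x * y * (138629 / 100000 + (1 - 4 * (x * y)) +
      (1 - 4 * (x * y)) ^ 2 / 2 + (1 - 4 * (x * y)) ^ 3 / 3)) +
      x * y * (1 - x * y / 2 - (x * y) ^ 2 / 6 - (x * y) ^ 3 / 7) -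
      2125 / 2468 *
      (x * (y * (1 - y / 2 - y ^ 2 / 6 - y ^ 3 / 12 - y ^ 4 / 20)) +
        y * (x * (1 - x / 2 - x ^ 2 / 6 - x ^ 3 / 12))) := by ring
    rw [this]
    linarith
  exact key _ _ _ h5 h2 h6

/-- multiply out the gain -/
theorem Gk_mul {x y : ℝ} (h : x * y < 1) :
    (1 - x * y) ^ 2 * Gk x y = FB x y - (max 0 (1 / 2 + 3 / 2 * (x * y) - x - y)) ^ 2 := by
  have h1 : (1 - x * y) ≠ 0 := by linarith
  unfold Gk FB
  generalize max 0 (1 / 2 + 3 / 2 * (x * y) - x - y) = m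
  field_simp

theorem regionB
    (PB1 : ∀ {x y : ℝ}, 0 ≤ x → x ≤ 9 / 20 → 0 ≤ y → y ≤ 1 / 2 →
      0 ≤ (1 - x * y) ^ 2 * (LB x y + RB x y) +
        433 / 10000 * (FB x y - (1 / 2 + 3 / 2 * (x * y) - x - y) ^ 2))
    (PB2 : ∀ {x y : ℝ}, 0 ≤ x → x ≤ 9 / 20 → 1 / 2 ≤ y → y ≤ 24 / 25 →
      0 ≤ (1 - x * y) ^ 2 * (LB x y + RB x y) + 433 / 10000 * FB x y)
    (PB3 : ∀ {x y : ℝ}, 0 ≤ x → x ≤ 9 / 20 → 24 / 25 ≤ y → y ≤ 1 →
      0 ≤ (1 - x * y) ^ 2 * (LB x y + RB x y - 433 / 10000 * ((om x - 3 / 50) * (71 / 50) / 2)) +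
        433 / 10000 * FB x y)
    {x y : ℝ} (hx0 : 0 ≤ x) (hx1 : x ≤ 9 / 20) (hxy : x ≤ y) (hy1 : y ≤ 1) :
    0 ≤ TA x y := by
  have hy0 : 0 ≤ y := hx0.trans hxy
  have ha0 : 0 ≤ x * y := mul_nonneg hx0 hy0
  have ha1 : x * y ≤ 9 / 20 := by nlinarith
  have ha : x * y < 1 := by linarith
  have hLB := AH_ge_LB hx0 hx1 hy0 hy1
  have hG := Gk_mul ha
  have hnx : nH x = 0 := by
    unfold nH
    rw [if_neg (by linarith)]
  have hpos : 0 < (1 - x * y) ^ 2 := by
    have : 0 < 1 - x * y := by linarith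
    positivity
  have hmulLB : (1 - x * y) ^ 2 * LB x y ≤ (1 - x * y) ^ 2 * AH x y :=
    mul_le_mul_of_nonneg_left hLB hpos.le
  have hTA : (1 - x * y) ^ 2 * TA x y = (1 - x * y) ^ 2 * AH x y + (1 - x * y) ^ 2 * RB x y +
      433 / 10000 * ((1 - x * y) ^ 2 * Gk x y) -
      (1 - x * y) ^ 2 * (433 / 10000 * ((om x - 3 / 50) * nH y / 2)) := by
    unfold TA RB
    rw [hnx]
    ring
  suffices h : 0 ≤ (1 - x * y) ^ 2 * TA x y by
    by_contra hneg
    have := mul_neg_of_pos_of_neg hpos (not_le.mp hneg)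
    linarith
  rw [hTA, hG]
  rcases le_total y (1 / 2) with hy | hy
  · have h1 := PB1 hx0 hx1 hy0 hy
    have hny : nH y = 0 := by
      unfold nH
      rw [if_neg (by linarith)]
    have hmax : (max 0 (1 / 2 + 3 / 2 * (x * y) - x - y)) ^ 2 ≤
        (1 / 2 + 3 / 2 * (x * y) - x - y) ^ 2 := by
      rcases le_total 0 (1 / 2 + 3 / 2 * (x * y) - x - y) with h | h
      · rw [max_eq_right h]
      · rw [max_eq_left h]; nlinarith [sq_nonneg (1 / 2 + 3 / 2 * (x * y) - x - y)]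
    rw [hny]
    nlinarith [h1, hmax, hmulLB]
  · have hmax : max 0 (1 / 2 + 3 / 2 * (x * y) - x - y) = 0 := by
      apply max_eq_left
      nlinarith [mul_nonneg hx0 hy0, mul_nonneg (sub_nonneg.mpr hx1) (sub_nonneg.mpr hy)]
    rw [hmax]
    rcases lt_or_ge y (24 / 25) with hy2 | hy2
    · have h2 := PB2 hx0 hx1 hy hy2.le
      have hny : nH y = 0 := by
        unfold nH
        rw [if_neg (by linarith)]
      rw [hny]
      nlinarith [h2, hmulLB]
    · have h3 := PB3 hx0 hx1 hy2 hy1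
      have hny : nH y = 71 / 50 := by
        unfold nH
        rw [if_pos hy2]
      rw [hny]
      nlinarith [h3, hmulLB]

end Pool.Agent.H69R2.UCT06R
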